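import Pool.Agent.H852R2.DM.Defs

namespace DM852
open RC14 RC852 Finset
open scoped InnerProductSpace

variable {G : Type*} [Group G] [Fintype G]
variable {V : Type*} [NormedAddCommGroup V] [InnerProductSpace ℂ V] [FiniteDimensional ℂ V]

/-- `AMP1SUB` for the operator `S` -/
theorem AMP1Q (ρ : G →* (V ≃ₗᵢ[ℂ] V)) (W : Submodule ℂ V) (hW : Irr ρ W) (q m : ℕ) (hq : 1 ≤ q)
    (x b : Fin q → G) (L : ℕ) (η : ℝ)
    (hη : RS ρ W hW.2.1 x b m (2 * L) ≤ η * Module.finrank ℂ W) (q' : ℕ) (hq' : 1 ≤ q') :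
    (Nat.card {z : Fin q' → G // ¬ ∀ v ∈ W,
        1 / (16 * (q' : ℝ) ^ 2) * ‖v‖ ^ 2 ≤
          96 * (m : ℝ) ^ 2 / q * En ρ x v + 16 / (q : ℝ) * En ρ b v + En ρ z v} : ℝ) ≤
      4 * Module.finrank ℂ W * ((8 / 7 : ℝ) ^ (2 * L) * η) ^ q' *
        (Fintype.card G : ℝ) ^ q' := by
  sorry

end DM852
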