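import Pool.Agent.H852R2.DM.Defs
import Pool.Agent.H14R2.RC.Low

namespace DM852
open RC14 RC852 Finset Filter Equiv

theorem RTD (δ : ℝ) (hδ : 0 < δ) (hδ1 : δ ≤ 1 / 8) : ∀ᶠ n : ℕ in atTop,
    ∀ (q m : ℕ) (x b : Fin q → Alt n), 1 ≤ q →
    GoodD δ (gx x m) (cb b) → ∀ j, 1 ≤ j → j ≤ mD δ n →
    ∀ (W : Submodule ℂ (V j n)) (hW : Irr (repA j n) W), W ≤ Lvl j n →
      RS (repA j n) W hW.2.1 x b m (2 * (32 * j)) ≤
        (6 * (n : ℝ) ^ (-δ)) ^ j * Module.finrank ℂ W := by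
  sorry

end DM852
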