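import Pool.Agent.H852R2.DM.Defs

namespace DM852
open RC14 RC852 Finset Filter Equiv

theorem BPARTD (δ : ℝ) (hδ : 0 < δ) (hδ1 : δ ≤ 1 / 8) : ∀ᶠ n : ℕ in atTop, ∀ q : ℕ, 1 ≤ q →
    ∀ (K : Type) [Fintype K] [Nonempty K] (g : K → Perm (Fin n)), Mix g →
    (Nat.card {b : Fin q → Alt n // ¬ GoodD δ g (cb b)} : ℝ) ≤
      1 / (n : ℝ) * (Fintype.card (Alt n) : ℝ) ^ q := by
  sorry

end DM852
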