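import Pool.Agent.H852R2.DM.Defs

namespace DM852
open RC14 RC852 Finset Filter Equiv Topology

/-- the diameter theorem: for every `ε > 0` and every sufficiently large fixed `k`, with
probability tending to one every element of `A_n` is a product of at most `n^{3/2+ε}` of the
elements `y_i^{±1}` -/
theorem DIAM (ε : ℝ) (hε : 0 < ε) : ∃ k0 : ℕ, ∀ k ≥ k0,
    Tendsto (fun n : ℕ =>
      (Nat.card {y : Fin k → Alt n // ∀ g : Alt n, Len y ⌊(n : ℝ) ^ (3 / 2 + ε)⌋₊ g} : ℝ) /
        (Fintype.card (Alt n) : ℝ) ^ k) atTop (𝓝 1) := by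
  sorry

end DM852
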