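import Pool.Agent.H852R2.DM.Defs

namespace DM852
open RC14 RC852 Finset Filter Equiv

theorem ZD (δ : ℝ) (hδ : 0 < δ) (hδ1 : δ ≤ 1 / 8) (q' : ℕ) (hq' : 16 / δ ≤ q') :
    ∀ᶠ n : ℕ in atTop, ∀ (q m : ℕ) (x b : Fin q → Alt n), 1 ≤ q →
    GoodD δ (gx x m) (cb b) →
    (Nat.card {z : Fin q' → Alt n // ¬ ∀ j, 1 ≤ j → j ≤ mD δ n → ∀ v ∈ Lvl j n,
        1 / (16 * (q' : ℝ) ^ 2) * ‖v‖ ^ 2 ≤ 96 * (m : ℝ) ^ 2 / q * En (repA j n) x v +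
          16 / (q : ℝ) * En (repA j n) b v + En (repA j n) z v} : ℝ) ≤
      1 / (n : ℝ) * (Fintype.card (Alt n) : ℝ) ^ q' := by
  sorry

end DM852
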